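import Pool.Agent.K6.H2.HS.Main
import Pool.Agent.K6.H2.HS.Cert13
import Pool.Agent.K6.H2.HS.Cert17
import Pool.Agent.K6.H2.HS.Cert25
import Pool.Agent.K6.H2.HS.Cert29
import Pool.Agent.K6.H2.HS.Cert37
import Pool.Agent.K6.H2.HS.Cert41
import Pool.Agent.K6.H2.HS.Cert53
import Pool.Agent.K6.H2.HS.Cert61
import Pool.Agent.K6.H2.HS.Cert73
import Pool.Agent.K6.H2.HS.Cert89

/-!
MP_eaf1c8_co: product theorems for decompositions of complete graphs into squares of Hamilton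
cycles, and infinite families of composite orders.
-/

namespace Pool.Agent.Results.MP_eaf1c8_co.ProductTheorems

open Pool.Agent.K6.H2.HS

theorem mulA : ∀ m ∈ ({13, 25, 37} : Finset ℕ), ∀ n, 8 ≤ n → Odd n → Decomp n →
    Decomp (m * n) := by
  intro m hm n hn8 hn hD
  simp only [Finset.mem_insert, Finset.mem_singleton] at hm
  rcases hm with rfl | rfl | rfl
  · exact mul_thm 13 n 1 0 d13 a13 W13 z13 (by norm_num) hn hn8 cert13 (Or.inl rfl) hD
  · exact mul_thm 25 n 2 0 d25 a25 W25 z25 (by norm_num) hn hn8 cert25 (Or.inl rfl) hD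
  · exact mul_thm 37 n 3 0 d37 a37 W37 z37 (by norm_num) hn hn8 cert37 (Or.inl rfl) hD

theorem mulB : ∀ m ∈ ({17, 29, 41, 53, 61, 73, 89} : Finset ℕ), ∀ n, 8 ≤ n → Odd n → Nat.Coprime n m →
    Decomp n → Decomp (m * n) := by
  intro m hm n hn8 hn hc hD
  simp only [Finset.mem_insert, Finset.mem_singleton] at hm
  rcases hm with rfl | rfl | rfl | rfl | rfl | rfl | rfl
  · exact mul_thm 17 n 1 1 d17 a17 W17 z17 (by norm_num) hn hn8 cert17 (Or.inr hc) hD
  · exact mul_thm 29 n 2 1 d29 a29 W29 z29 (by norm_num) hn hn8 cert29 (Or.inr hc) hD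
  · exact mul_thm 41 n 3 1 d41 a41 W41 z41 (by norm_num) hn hn8 cert41 (Or.inr hc) hD
  · exact mul_thm 53 n 1 10 d53 a53 W53 z53 (by norm_num) hn hn8 cert53 (Or.inr hc) hD
  · exact mul_thm 61 n 1 12 d61 a61 W61 z61 (by norm_num) hn hn8 cert61 (Or.inr hc) hD
  · exact mul_thm 73 n 1 15 d73 a73 W73 z73 (by norm_num) hn hn8 cert73 (Or.inr hc) hD
  · exact mul_thm 89 n 1 19 d89 a89 W89 z89 (by norm_num) hn hn8 cert89 (Or.inr hc) hD

theorem oddA : ∀ m ∈ ({13, 25, 37} : Finset ℕ), Odd m ∧ 1 ≤ m := by decide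

theorem oddB : ∀ m ∈ ({17, 29, 41, 53, 61, 73, 89} : Finset ℕ), Odd m ∧ 1 ≤ m := by decide

theorem copAB : ∀ m ∈ ({13, 25, 37} : Finset ℕ), ∀ t ∈ ({17, 29, 41, 53, 61, 73, 89} : Finset ℕ),
    Nat.Coprime m t := by decide

theorem primeB : ∀ t ∈ ({17, 29, 41, 53, 61, 73, 89} : Finset ℕ), t.Prime := by
  intro t ht
  simp only [Finset.mem_insert, Finset.mem_singleton] at ht
  rcases ht with rfl | rfl | rfl | rfl | rfl | rfl | rfl <;> norm_num

theorem ge_of {m n : ℕ} (hm : 1 ≤ m) (hn : 8 ≤ n) : 8 ≤ m * n :=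
  hn.trans (Nat.le_mul_of_pos_left n hm)

theorem pows (m : ℕ) (hm : m ∈ ({13, 25, 37} : Finset ℕ)) (n : ℕ) (hn8 : 8 ≤ n)
    (hn : Odd n) (hD : Decomp n) (k : ℕ) :
    Decomp (m ^ k * n) ∧ 8 ≤ m ^ k * n ∧ Odd (m ^ k * n) := by
  induction k with
  | zero => simpa using ⟨hD, hn8, hn⟩
  | succ k ih =>
    obtain ⟨h1, h2, h3⟩ := ih
    rw [pow_succ', mul_assoc]
    exact ⟨mulA m hm _ h2 h3 h1, ge_of (oddA m hm).2 h2, (oddA m hm).1.mul h3⟩

theorem prodA (p : ℕ) (h8 : 8 ≤ p) (hodd : Odd p) (hD : Decomp p) (e : ℕ → ℕ) (S : Finset ℕ)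
    (hS : S ⊆ ({13, 25, 37} : Finset ℕ)) :
    Decomp ((∏ m ∈ S, m ^ e m) * p) ∧ 8 ≤ (∏ m ∈ S, m ^ e m) * p ∧
      Odd ((∏ m ∈ S, m ^ e m) * p) := by
  induction S using Finset.induction_on with
  | empty => simpa using ⟨hD, h8, hodd⟩
  | insert m S hmS ih =>
    obtain ⟨h1, h2, h3⟩ := ih ((Finset.subset_insert m S).trans hS)
    rw [Finset.prod_insert hmS, mul_assoc]
    exact pows m (hS (Finset.mem_insert_self m S)) _ h2 h3 h1 (e m)

theorem prodB (N : ℕ) (h8 : 8 ≤ N) (hodd : Odd N) (hD : Decomp N) (T : Finset ℕ)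
    (hT : T ⊆ ({17, 29, 41, 53, 61, 73, 89} : Finset ℕ)) (hc : ∀ t ∈ T, Nat.Coprime N t) :
    Decomp ((∏ t ∈ T, t) * N) ∧ 8 ≤ (∏ t ∈ T, t) * N ∧ Odd ((∏ t ∈ T, t) * N) := by
  induction T using Finset.induction_on with
  | empty => simpa using ⟨hD, h8, hodd⟩
  | insert t T htT ih =>
    obtain ⟨h1, h2, h3⟩ := ih ((Finset.subset_insert t T).trans hT)
      (fun r hr => hc r (Finset.mem_insert_of_mem hr))
    have ht := hT (Finset.mem_insert_self t T)
    rw [Finset.prod_insert htT, mul_assoc]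
    refine ⟨mulB t ht _ h2 h3 ?_ h1, ge_of (oddB t ht).2 h2, (oddB t ht).1.mul h3⟩
    refine Nat.Coprime.mul_left (Nat.Coprime.prod_left fun r hr => ?_)
      (hc t (Finset.mem_insert_self t T))
    refine (Nat.coprime_primes (primeB r (hT (Finset.mem_insert_of_mem hr))) (primeB t ht)).2 ?_
    rintro rfl
    exact htT hr

/-- If `K_n` decomposes into squares of Hamilton cycles (`n ≥ 8` odd), then so does `K_{mn}` for
the multipliers `m` of the first list, and for those of the second list if `m` and `n` are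
coprime.  Consequently the complete graph on `∏ t ∈ T, t * ∏ m, m ^ e m * p` vertices decomposes
for every prime `p ≥ 13` such that `4` divides the order of `2` modulo `p`, all exponents `e` and
every subset `T` of the second list not containing `p`. -/
theorem result :
    (∀ m ∈ ({13, 25, 37} : Finset ℕ), ∀ n, 8 ≤ n → Odd n → Decomp n →
      Decomp (m * n)) ∧
    (∀ m ∈ ({17, 29, 41, 53, 61, 73, 89} : Finset ℕ), ∀ n, 8 ≤ n → Odd n → Nat.Coprime n m → Decomp n →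
      Decomp (m * n)) ∧
    (∀ p : ℕ, p.Prime → 13 ≤ p → 4 ∣ orderOf (2 : ZMod p) → ∀ (e : ℕ → ℕ) (T : Finset ℕ),
      T ⊆ ({17, 29, 41, 53, 61, 73, 89} : Finset ℕ) → p ∉ T →
        Decomp ((∏ t ∈ T, t) * ((∏ m ∈ ({13, 25, 37} : Finset ℕ), m ^ e m) * p))) := by
  refine ⟨mulA, mulB, fun p hp h13 h4 e T hT hpT => ?_⟩
  have hD := P_PRM p hp (by omega) h4
  have hodd : Odd p := hp.odd_of_ne_two (by omega)
  obtain ⟨g1, g2, g3⟩ := prodA p (by omega) hodd hD e _ (Finset.Subset.refl _)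
  refine (prodB _ g2 g3 g1 T hT fun t ht => ?_).1
  refine Nat.Coprime.mul_left (Nat.Coprime.prod_left fun m hm =>
    Nat.Coprime.pow_left _ (copAB m hm t (hT ht))) ?_
  refine (Nat.coprime_primes hp (primeB t (hT ht))).2 ?_
  rintro rfl
  exact hpT ht

end Pool.Agent.Results.MP_eaf1c8_co.ProductTheorems
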